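import Pool.Agent.helper55.BL.Spec
import Pool.Agent.helper61.BM.TWC
import Pool.Agent.helper61.BM.WLK

set_option autoImplicit false

namespace Pool.Agent.helper55.BL

open Finset
open Pool.Agent.helper61.BM (Clo dg)

open scoped Classical in
theorem FIN_dg {V : Type} [Fintype V] [DecidableEq V] (G : SimpleGraph V) [DecidableRel G.Adj] (v : V) :
    dg G v = G.degree v := by
  rw [← SimpleGraph.card_neighborFinset_eq_degree]
  unfold dg
  refine congrArg Finset.card ?_
  ext w
  simp

theorem FIN (hLRG : LRG_stmt) (hLOW : LOW_stmt) : FIN_stmt := by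
  intro V _ _ G _ c _ hconn h3 hcard e hno
  have hTwo : Two G := fun x A hx hA hy => Pool.Agent.helper61.BM.TWC V G x (hconn x) A hx hA hy
  obtain ⟨l, hl, hlen⟩ := hLRG V G c _ h3 hTwo (hLOW V G c e h3 (by
    rintro ⟨j, k, h1, h2, h4, h5, h6, h7⟩
    refine hno ⟨j, k, h1, h2, h4, ?_, ?_, ?_⟩
    · rw [← FIN_dg]; exact h5
    · rw [← FIN_dg]; exact h6
    · rw [← FIN_dg, ← FIN_dg]; exact h7)) (by
    intro v hv
    by_contra hlt
    apply hv
    rw [Finset.mem_filter]
    exact ⟨Finset.mem_univ _, by omega⟩) hcard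
  obtain ⟨u, w, hw, hlen2⟩ := Pool.Agent.helper61.BM.WLK V G l hl (by omega)
  exact ⟨u, w, hw, by omega⟩

end Pool.Agent.helper55.BL
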